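import Pool.Agent.H72.G4.Struct

/-!
# Reversal of all arcs
-/

set_option autoImplicit false

namespace Pool.Agent.H80.G4

open Relation Pool.Agent.H13.DA Pool.Agent.H72.G4

/-- the digraph with all arcs reversed -/
def Rev {V : Type*} (D : V → V → Prop) (x y : V) : Prop := D y x

section basic

variable {V : Type*} {D : V → V → Prop} {a b c : V}

theorem rev_rev (D : V → V → Prop) : Rev (Rev D) = D := rfl

theorem rev_iff {x y : V} : Rev D x y ↔ D y x := Iff.rfl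

theorem ar_rev {x y : V} : Ar (Rev D) x y ↔ Ar D x y := or_comm

theorem re_rev {x : V} : Re (Rev D) x ↔ Re D x :=
  ⟨fun ⟨y, hy⟩ => ⟨y, ar_rev.1 hy⟩, fun ⟨y, hy⟩ => ⟨y, ar_rev.2 hy⟩⟩

theorem out_rev : Out (Rev D) a b c ↔ Out D a b c :=
  ⟨fun ⟨h1, h2, h3⟩ => ⟨ar_rev.1 h1, ar_rev.1 h2, ar_rev.1 h3⟩,
    fun ⟨h1, h2, h3⟩ => ⟨ar_rev.2 h1, ar_rev.2 h2, ar_rev.2 h3⟩⟩

theorem nr_rev (D : V → V → Prop) : nr (Rev D) = nr D := by
  unfold nr
  congr 1
  ext x
  exact re_rev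

theorem na_rev (D : V → V → Prop) : na (Rev D) = na D := by
  unfold na
  have e : {p : V × V | Rev D p.1 p.2} = Prod.swap '' {p : V × V | D p.1 p.2} := by
    ext ⟨x, y⟩
    constructor
    · intro h
      exact ⟨(y, x), h, rfl⟩
    · rintro ⟨⟨u, w⟩, h, e⟩
      obtain ⟨rfl, rfl⟩ := Prod.mk.inj e
      exact h
  rw [e, Set.ncard_image_of_injective _ Prod.swap_injective]

theorem sto_rev {r : V → V → Prop} (h : STO r) : STO (Rev r) where
  irr := h.irr
  tr := fun x y z h1 h2 => h.tr z y x h2 h1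
  tot := fun x y => by
    rcases h.tot x y with h1 | h1 | h1
    · exact Or.inr (Or.inr h1)
    · exact Or.inr (Or.inl h1)
    · exact Or.inl h1

theorem ex_rev {O : Fin 3 → V → V → Prop} {x y : V} :
    Ex (fun i => Rev (O i)) x y ↔ Ex O y x := Iff.rfl

private theorem solv_rev1 {S : V → Prop} (hs : Solv D S) : Solv (Rev D) S := by
  intro O hO hE
  obtain ⟨O', h1, h2, h3⟩ := hs (fun i => Rev (O i)) (fun i => sto_rev (hO i))
    (fun x y hx hy h => hE y x hy hx h)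
  exact ⟨fun i => Rev (O' i), fun i => sto_rev (h1 i), fun x y h => h2 y x h,
    fun i x y hx hy => h3 i y x hy hx⟩

theorem solv_rev {S : V → Prop} : Solv (Rev D) S ↔ Solv D S :=
  ⟨fun h => solv_rev1 h, solv_rev1⟩

end basic

section disc

variable {V : Type*} [DecidableEq V] {T : Finset (V × V × V)} {D : V → V → Prop} {a b c : V}

omit [DecidableEq V] in
private theorem pl_rev1 {l : List V} (h : Pl T D l) : Pl T (Rev D) l where
  disc := h.disc
  bd := h.bd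
  adj := fun x y hxy => (h.adj y x hxy).symm
  asymm := fun x y hxy => h.asymm y x hxy
  tri := fun x y z h1 h2 h3 => h.tri z y x h2 h1 h3

theorem pl_rev {l : List V} : Pl T (Rev D) l ↔ Pl T D l := ⟨fun h => pl_rev1 h, pl_rev1⟩

private theorem mc_rev1 (h : MC T D a b c) : MC T (Rev D) a b c where
  pl := pl_rev.2 h.pl
  out := out_rev.2 h.out
  bad := fun hs => h.bad (solv_rev.1 hs)
  min1 := fun T' D' a' b' c' h1 h2 h3 => solv_rev.1 (h.min1 T' (Rev D') a' b' c' (pl_rev.2 h1)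
    (out_rev.2 h2) (by rwa [nr_rev, ← nr_rev D]))
  min2 := fun T' D' a' b' c' h1 h2 h3 h4 => solv_rev.1 (h.min2 T' (Rev D') a' b' c' (pl_rev.2 h1)
    (out_rev.2 h2) (by rwa [nr_rev, ← nr_rev D]) (by rwa [na_rev, ← na_rev D]))
  min3 := fun T' D' a' b' c' h1 h2 h3 h4 h5 => solv_rev.1 (h.min3 T' (Rev D') a' b' c'
    (pl_rev.2 h1) (out_rev.2 h2) (by rwa [nr_rev, ← nr_rev D]) (by rwa [na_rev, ← na_rev D]) h5)

/-- reversal of a minimal counterexample -/
theorem mc_rev : MC T (Rev D) a b c ↔ MC T D a b c := ⟨fun h => mc_rev1 h, mc_rev1⟩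

private theorem mcw_rev1 (h : MCw T D a b c) : MCw T (Rev D) a b c where
  pl := pl_rev.2 h.pl
  out := out_rev.2 h.out
  bad := fun hs => h.bad (solv_rev.1 hs)
  min1 := fun T' D' a' b' c' h1 h2 h3 => solv_rev.1 (h.min1 T' (Rev D') a' b' c' (pl_rev.2 h1)
    (out_rev.2 h2) (by rwa [nr_rev, ← nr_rev D]))
  min2 := fun T' D' a' b' c' h1 h2 h3 h4 => solv_rev.1 (h.min2 T' (Rev D') a' b' c' (pl_rev.2 h1)
    (out_rev.2 h2) (by rwa [nr_rev, ← nr_rev D]) (by rwa [na_rev, ← na_rev D]))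

theorem mcw_rev : MCw T (Rev D) a b c ↔ MCw T D a b c := ⟨fun h => mcw_rev1 h, mcw_rev1⟩

private theorem ts_rev1 (h : Ts T D a b c) : Ts T (Rev D) a b c where
  pl := pl_rev.2 h.pl
  out := out_rev.2 h.out
  du := fun x hx hr => by
    obtain ⟨x1, x2, x3, x4, h1, h2, h3, h4, h5⟩ := h.du x hx fun k => hr (re_rev.2 k)
    refine ⟨x1, x4, x3, x2, h4, h3, h2, h1, fun y => (h5 y).trans ?_⟩
    tauto
  re := fun x y hxy hx hy => ar_rev.2 (h.re x y hxy (re_rev.1 hx) (re_rev.1 hy))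
  fc := h.fc
  io := fun v hv hn => ⟨(h.io v (re_rev.1 hv) hn).2, (h.io v (re_rev.1 hv) hn).1⟩

theorem ts_rev : Ts T (Rev D) a b c ↔ Ts T D a b c := ⟨fun h => ts_rev1 h, ts_rev1⟩

omit [DecidableEq V] in
private theorem good_rev1 {v : V} (h : Good T D v) : Good T (Rev D) v := by
  intro p u o h1 h2 h3 h4 h5 h6 h7
  rcases h p u o (ar_rev.1 h1) (ar_rev.1 h2) h3 (fun k => h4 (ar_rev.2 k)) h5 (ar_rev.1 h6)
    (ar_rev.1 h7) with k | ⟨d, k1, k2⟩
  · exact Or.inl (ar_rev.2 k)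
  · exact Or.inr ⟨d, fun k => k1 (re_rev.1 k), k2⟩

theorem good_rev {v : V} : Good T (Rev D) v ↔ Good T D v := ⟨fun h => good_rev1 h, good_rev1⟩

end disc

end Pool.Agent.H80.G4
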