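import Pool.Agent.H72.G4.Rot
import Pool.Agent.H13.G4.Bdd
import Pool.Agent.H80.G4.Rev

/-!
# The mirror image of the disc

`Mir T` : all triples `(x, y, z)` replaced by `(x, z, y)`. All notions of the local arguments are
invariant; the rotation at a vertex is read backwards. Every statement
`MCw T D a b c → Ts T D a b c → Rot T D v n x w → ... → False` gives its mirror image.
-/

set_option autoImplicit false

namespace Pool.Agent.H80.G4

open Relation Pool.Agent.H13.DA Pool.Agent.H72.G4 Pool.Agent.H13.G4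

section cx

variable {V : Type*}

/-- the exchange of the last two entries -/
def swp (V : Type*) : (V × V × V) ↪ (V × V × V) where
  toFun t := (t.1, t.2.2, t.2.1)
  inj' := by
    rintro ⟨x, y, z⟩ ⟨x', y', z'⟩ h
    simp only [Prod.mk.injEq] at h
    obtain ⟨rfl, rfl, rfl⟩ := h
    rfl

/-- the mirror image -/
def Mir (T : Finset (V × V × V)) : Finset (V × V × V) := T.map (swp V)

variable {T X Y : Finset (V × V × V)}

theorem mem_mir {x y z : V} : (x, y, z) ∈ Mir T ↔ (x, z, y) ∈ T := by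
  unfold Mir
  rw [Finset.mem_map]
  constructor
  · rintro ⟨⟨p, q, r⟩, h, e⟩
    change (p, r, q) = (x, y, z) at e
    simp only [Prod.mk.injEq] at e
    obtain ⟨rfl, rfl, rfl⟩ := e
    exact h
  · intro h
    exact ⟨(x, z, y), h, rfl⟩

theorem mir_mir (T : Finset (V × V × V)) : Mir (Mir T) = T := by
  ext ⟨x, y, z⟩
  rw [mem_mir, mem_mir]

theorem mir_card (T : Finset (V × V × V)) : (Mir T).card = T.card := Finset.card_map _

theorem mir_sub (h : X ⊆ Y) : Mir X ⊆ Mir Y := Finset.map_subset_map.2 h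

theorem sub_mir (h : X ⊆ Mir Y) : Mir X ⊆ Y := by
  have := mir_sub h
  rwa [mir_mir] at this

theorem mir_sdiff [DecidableEq V] (T X : Finset (V × V × V)) : Mir (T \ X) = Mir T \ Mir X := by
  ext ⟨x, y, z⟩
  rw [mem_mir, Finset.mem_sdiff, Finset.mem_sdiff, mem_mir, mem_mir]

theorem cx_mir (h : IsCx T) : IsCx (Mir T) where
  rot := fun {a b c} k => by
    rw [mem_mir] at k ⊢
    exact h.rot (h.rot k)
  ne := fun {a b c} k => by
    rw [mem_mir] at k
    exact (h.ne (h.rot (h.rot k))).symm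
  uniq := fun {a b c d} k l => by
    rw [mem_mir] at k l
    exact h.uniq (h.rot (h.rot k)) (h.rot (h.rot l))

theorem verts_mir : verts (Mir T) = verts T := by
  ext x
  rw [mem_verts, mem_verts]
  constructor
  · rintro ⟨y, z, h⟩
    exact ⟨z, y, mem_mir.1 h⟩
  · rintro ⟨y, z, h⟩
    exact ⟨z, y, mem_mir.2 h⟩

private theorem adj_mir1 (h : IsCx T) {x y : V} (k : Adj T x y) : Adj (Mir T) x y := by
  rcases k with ⟨z, hz⟩ | ⟨z, hz⟩
  · exact Or.inr ⟨z, mem_mir.2 (h.rot hz)⟩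
  · exact Or.inl ⟨z, mem_mir.2 (h.rot hz)⟩

theorem adj_mir (h : IsCx T) {x y : V} : Adj (Mir T) x y ↔ Adj T x y := by
  refine ⟨fun k => ?_, adj_mir1 h⟩
  have := adj_mir1 (cx_mir h) k
  rwa [mir_mir] at this

theorem bd_mir (h : IsCx T) {x y : V} : Bd (Mir T) x y ↔ Bd T y x := by
  constructor
  · rintro ⟨⟨z, hz⟩, k⟩
    refine ⟨⟨z, ?_⟩, fun w hw => ?_⟩
    · exact h.rot (h.rot (mem_mir.1 hz))
    · exact k w (mem_mir.2 (h.rot hw))
  · rintro ⟨⟨z, hz⟩, k⟩
    refine ⟨⟨z, mem_mir.2 (h.rot hz)⟩, fun w hw => ?_⟩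
    exact k w (h.rot (h.rot (mem_mir.1 hw)))

private theorem step_mir (h : IsCx T) {s t : V × V × V} (k : Step T s t) :
    ReflTransGen (Step (Mir T)) (swp V s) (swp V t) := by
  have hM := cx_mir h
  cases k with
  | @rot a b c k =>
    change ReflTransGen (Step (Mir T)) (a, c, b) (b, a, c)
    have k1 : (a, c, b) ∈ Mir T := mem_mir.2 k
    exact (ReflTransGen.single (Step.rot k1)).tail (Step.rot (hM.rot k1))
  | @flip a b c d k l =>
    change ReflTransGen (Step (Mir T)) (a, c, b) (b, d, a)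
    have k1 : (a, c, b) ∈ Mir T := mem_mir.2 k
    have k3 : (b, a, c) ∈ Mir T := hM.rot (hM.rot k1)
    have l1 : (b, d, a) ∈ Mir T := mem_mir.2 l
    have l2 : (a, b, d) ∈ Mir T := hM.rot (hM.rot l1)
    exact (((ReflTransGen.single (Step.rot k1)).tail (Step.rot (hM.rot k1))).tail
      (Step.flip k3 l2)).tail (Step.rot l2)

theorem conn_mir (h : IsCx T) (hc : Conn T) : Conn (Mir T) := by
  have key : ∀ s t, ReflTransGen (Step T) s t →
      ReflTransGen (Step (Mir T)) (swp V s) (swp V t) := by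
    intro s t k
    induction k with
    | refl => exact ReflTransGen.refl
    | tail _ k2 ih => exact ih.trans (step_mir h k2)
  rintro ⟨x, y, z⟩ hs ⟨p, q, r⟩ ht
  exact key (x, z, y) (p, r, q) (hc _ (mem_mir.1 hs) _ (mem_mir.1 ht))

theorem edges_mir (h : IsCx T) : edges (Mir T) = edges T := by
  ext e
  unfold edges
  simp only [Finset.mem_image]
  constructor
  · rintro ⟨⟨x, y, z⟩, k, rfl⟩
    refine ⟨(y, x, z), ?_, Sym2.eq_swap⟩
    exact h.rot (h.rot (mem_mir.1 k))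
  · rintro ⟨⟨x, y, z⟩, k, rfl⟩
    refine ⟨(y, x, z), ?_, Sym2.eq_swap⟩
    exact mem_mir.2 (h.rot k)

theorem chi_mir (h : IsCx T) : chi (Mir T) = chi T := by
  unfold chi
  rw [verts_mir, edges_mir h, mir_card]

theorem disc_mir (h : Disc T) : Disc (Mir T) where
  cx := cx_mir h.cx
  conn := conn_mir h.cx h.conn
  bd := by
    obtain ⟨x, y, k⟩ := h.bd
    exact ⟨y, x, (bd_mir h.cx).2 k⟩
  chi := by rw [chi_mir h.cx]; exact h.chi

theorem isBd_mir (h : IsCx T) {l : List V} (k : IsBd T l) : IsBd (Mir T) l.reverse where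
  nodup := List.nodup_reverse.2 k.nodup
  len := by rw [List.length_reverse]; exact k.len
  iff := fun x y => by rw [bd_mir h, k.iff, cyc_reverse]

theorem face_mir {x y z : V} : Face (Mir T) x y z ↔ Face T x y z := by
  unfold Face
  rw [mem_mir, mem_mir]
  exact or_comm

end cx

section loc

variable {V : Type*} [DecidableEq V] {T : Finset (V × V × V)} {D : V → V → Prop} {a b c : V}

omit [DecidableEq V] in
theorem tr_mir {x : V} : Tr c b a x ↔ Tr a b c x := by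
  unfold Tr
  tauto

omit [DecidableEq V] in
theorem tr_mir' : Tr c b a = Tr a b c := by
  funext x
  exact propext tr_mir

omit [DecidableEq V] in
theorem pl_mir {l : List V} (h : Pl T D l) : Pl (Mir T) D l.reverse where
  disc := disc_mir h.disc
  bd := isBd_mir h.disc.cx h.bd
  adj := fun x y k => (adj_mir h.disc.cx).2 (h.adj x y k)
  asymm := h.asymm
  tri := h.tri

omit [DecidableEq V] in
theorem pl_mir3 (h : Pl T D [a, b, c]) : Pl (Mir T) D [c, b, a] := pl_mir h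

omit [DecidableEq V] in
theorem out_mir (h : Out D a b c) : Out D c b a :=
  ⟨ar_symm h.2.1, ar_symm h.1, ar_symm h.2.2⟩

omit [DecidableEq V] in
theorem mcw_mir (h : MCw T D a b c) : MCw (Mir T) D c b a where
  pl := pl_mir3 h.pl
  out := out_mir h.out
  bad := by rw [tr_mir']; exact h.bad
  min1 := h.min1
  min2 := h.min2

omit [DecidableEq V] in
theorem ts_mir (h : Ts T D a b c) : Ts (Mir T) D c b a where
  pl := pl_mir3 h.pl
  out := out_mir h.out
  du := fun x hx hr => by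
    rw [verts_mir] at hx
    obtain ⟨x1, x2, x3, x4, h1, h2, h3, h4, h5⟩ := h.du x hx hr
    exact ⟨x1, x2, x3, x4, h1, h2, h3, h4, fun y => (adj_mir h.pl.disc.cx).trans (h5 y)⟩
  re := fun x y k hx hy => h.re x y ((adj_mir h.pl.disc.cx).1 k) hx hy
  fc := fun x y z k1 k2 k3 => by
    rw [adj_mir h.pl.disc.cx] at k1 k2 k3
    rcases h.fc x y z k1 k2 k3 with k | ⟨l1, l2, l3⟩
    · exact Or.inl (face_mir.2 k)
    · exact Or.inr ⟨tr_mir.2 l1, tr_mir.2 l2, tr_mir.2 l3⟩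
  io := fun v hv hn => h.io v hv fun k => hn (tr_mir.2 k)

omit [DecidableEq V] in
theorem good_mir (hc : IsCx T) {v : V} (h : Good T D v) : Good (Mir T) D v := by
  intro p u o h1 h2 h3 h4 h5 h6 h7
  rcases h p u o h1 h2 h3 h4 h5 h6 h7 with k | ⟨d, k1, k2, k3, k4, k5⟩
  · exact Or.inl k
  · exact Or.inr ⟨d, k1, (adj_mir hc).2 k2, (adj_mir hc).2 k3, (adj_mir hc).2 k4,
      (adj_mir hc).2 k5⟩

omit [DecidableEq V] in
theorem chl_mir {Z : List V} (h : Chl D Z) : Chl D Z.reverse where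
  arc := fun x y k => ar_symm (h.arc y x ((cyc_reverse Z x y).1 k))
  ch := fun x y hx hy k => by
    rw [cyc_reverse, cyc_reverse]
    rw [List.mem_reverse] at hx hy
    exact (h.ch x y hx hy k).symm

theorem reg_mir {X : Finset (V × V × V)} {Z : List V} (h : Reg T X D Z) :
    Reg (Mir T) (Mir X) D Z.reverse where
  sub := mir_sub h.sub
  disc := disc_mir h.disc
  bd := isBd_mir h.disc.cx h.bd
  sep := fun v h1 h2 => by
    rw [← mir_sdiff, verts_mir] at h2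
    rw [verts_mir] at h1
    exact List.mem_reverse.2 (h.sep v h1 h2)
  re := fun v hv => h.re v (List.mem_reverse.1 hv)

omit [DecidableEq V] in
theorem no2_mir {X : Finset (V × V × V)} (hX : IsCx X) {Z : List V} (h : No2 X D Z) :
    No2 (Mir X) D Z.reverse := by
  intro v p r h1 h2 w hw hwZ hr k1 k2
  rw [cyc_reverse] at h1 h2
  rw [adj_mir hX] at k1 k2
  rw [verts_mir] at hw
  exact h v r p h2 h1 w hw (fun k => hwZ (List.mem_reverse.2 k)) hr k2 k1

end loc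

section rot

variable {V : Type*} {T : Finset (V × V × V)} {D : V → V → Prop}

/-- the corner type read backwards -/
def ctm : CT → CT
  | CT.q => CT.q
  | CT.s1 => CT.s2
  | CT.s2 => CT.s1
  | CT.m => CT.m

theorem ctm_ctm (t : CT) : ctm (ctm t) = t := by cases t <;> rfl

theorem ctm_q {t : CT} : ctm t = CT.q ↔ t = CT.q := by cases t <;> simp [ctm]

theorem cor_mir {v x y : V} {t : CT} (h : Cor T D v x y t) : Cor (Mir T) D v y x (ctm t) := by
  cases t
  · obtain ⟨⟨d, h1, h2, h3⟩, h4⟩ := h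
    refine ⟨⟨d, h1, mem_mir.2 h3, mem_mir.2 h2⟩, ?_⟩
    rcases h4 with ⟨k1, k2⟩ | ⟨k1, k2⟩
    · exact Or.inr ⟨k2, k1⟩
    · exact Or.inl ⟨k2, k1⟩
  · obtain ⟨h1, ⟨k1, k2, k3⟩ | ⟨k1, k2, k3⟩⟩ := h
    · exact ⟨mem_mir.2 h1, Or.inl ⟨k2, k1, k3⟩⟩
    · exact ⟨mem_mir.2 h1, Or.inr ⟨k2, k1, k3⟩⟩
  · obtain ⟨h1, ⟨k1, k2, k3⟩ | ⟨k1, k2, k3⟩⟩ := h
    · exact ⟨mem_mir.2 h1, Or.inl ⟨k2, k1, k3⟩⟩
    · exact ⟨mem_mir.2 h1, Or.inr ⟨k2, k1, k3⟩⟩
  · obtain ⟨h1, ⟨k1, k2, k3⟩ | ⟨k1, k2, k3⟩⟩ := h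
    · exact ⟨mem_mir.2 h1, Or.inr ⟨k2, k1, k3⟩⟩
    · exact ⟨mem_mir.2 h1, Or.inl ⟨k2, k1, k3⟩⟩

theorem cor_rev {v x y : V} {t : CT} (h : Cor T D v x y t) : Cor T (Rev D) v x y t := by
  cases t
  · obtain ⟨⟨d, h1, h2, h3⟩, h4⟩ := h
    refine ⟨⟨d, fun k => h1 (re_rev.1 k), h2, h3⟩, ?_⟩
    rcases h4 with ⟨k1, k2⟩ | ⟨k1, k2⟩
    · exact Or.inr ⟨k1, k2⟩
    · exact Or.inl ⟨k1, k2⟩
  · obtain ⟨h1, ⟨k1, k2, k3⟩ | ⟨k1, k2, k3⟩⟩ := h
    · exact ⟨h1, Or.inr ⟨k1, k2, k3⟩⟩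
    · exact ⟨h1, Or.inl ⟨k1, k2, k3⟩⟩
  · obtain ⟨h1, ⟨k1, k2, k3⟩ | ⟨k1, k2, k3⟩⟩ := h
    · exact ⟨h1, Or.inr ⟨k1, k2, k3⟩⟩
    · exact ⟨h1, Or.inl ⟨k1, k2, k3⟩⟩
  · obtain ⟨h1, ⟨k1, k2, k3⟩ | ⟨k1, k2, k3⟩⟩ := h
    · exact ⟨h1, Or.inr ⟨k1, k2, k3⟩⟩
    · exact ⟨h1, Or.inl ⟨k1, k2, k3⟩⟩

variable {a b c v : V} {n : ℕ} {x : Fin (n + 1) → V} {w : Fin (n + 1) → CT}

/-- reversal of all arcs does not change the word -/
theorem rot_rev (h : Rot T D v n x w) : Rot T (Rev D) v n x w where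
  inj := h.inj
  nb := fun u => ar_rev.trans (h.nb u)
  cor := fun i => cor_rev (h.cor i)
  nx := fun i y hy k => h.nx i y (re_rev.1 hy) k

/-- **The rotation read backwards.** The neighbours are `x 0, x n, ..., x 1`, the corner types are
the mirror images of `w n, ..., w 0`. -/
theorem rot_mir (hT : Ts T D a b c) (h : Rot T D v n x w) :
    Rot (Mir T) D v n (fun i => x (-i)) (fun i => ctm (w (-(i + 1)))) where
  inj := fun i j hij => neg_injective (h.inj hij)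
  nb := fun u => (h.nb u).trans
    ⟨fun ⟨i, hi⟩ => ⟨-i, by rw [neg_neg]; exact hi⟩, fun ⟨i, hi⟩ => ⟨-i, hi⟩⟩
  cor := fun i => by
    have := cor_mir (h.cor (-(i + 1)))
    rwa [show -(i + 1) + 1 = -i by abel] at this
  nx := fun i y hy k => by
    have k1 : (v, y, x (-i)) ∈ T := mem_mir.1 k
    have hv : Re D v := ⟨x 0, (h.nb _).2 ⟨0, rfl⟩⟩
    have har : Ar D v y := hT.re _ _ (Or.inl ⟨_, k1⟩) hv hy
    obtain ⟨j, rfl⟩ := (h.nb y).1 har
    have hx : Re D (x (-i)) := ⟨v, ar_symm ((h.nb _).2 ⟨_, rfl⟩)⟩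
    obtain ⟨e1, e2⟩ := h.nx j (x (-i)) hx k1
    have e3 : -i = j + 1 := h.inj e1
    have e4 : j = -(i + 1) := by
      have : j = -i - 1 := by rw [e3]; abel
      rw [this]; abel
    subst e4
    exact ⟨rfl, fun k => e2 (ctm_q.1 k)⟩

end rot

section rot4

variable {V : Type*} {T : Finset (V × V × V)} {D : V → V → Prop} {a b c v : V}

/-- the backward rotation for three neighbours -/
theorem rot_mir3 (hT : Ts T D a b c) {x0 x1 x2 : V} {w0 w1 w2 : CT}
    (h : Rot T D v 2 ![x0, x1, x2] ![w0, w1, w2]) :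
    Rot (Mir T) D v 2 ![x0, x2, x1] ![ctm w2, ctm w1, ctm w0] := by
  have := rot_mir hT h
  have e1 : (fun i => (![x0, x1, x2] : Fin 3 → V) (-i)) = ![x0, x2, x1] := by
    funext i
    fin_cases i <;> rfl
  have e2 : (fun i => ctm ((![w0, w1, w2] : Fin 3 → CT) (-(i + 1)))) =
      ![ctm w2, ctm w1, ctm w0] := by
    funext i
    fin_cases i <;> rfl
  rwa [e1, e2] at this

/-- the backward rotation for four neighbours -/
theorem rot_mir4 (hT : Ts T D a b c) {x0 x1 x2 x3 : V} {w0 w1 w2 w3 : CT}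
    (h : Rot T D v 3 ![x0, x1, x2, x3] ![w0, w1, w2, w3]) :
    Rot (Mir T) D v 3 ![x0, x3, x2, x1] ![ctm w3, ctm w2, ctm w1, ctm w0] := by
  have := rot_mir hT h
  have e1 : (fun i => (![x0, x1, x2, x3] : Fin 4 → V) (-i)) = ![x0, x3, x2, x1] := by
    funext i
    fin_cases i <;> rfl
  have e2 : (fun i => ctm ((![w0, w1, w2, w3] : Fin 4 → CT) (-(i + 1)))) =
      ![ctm w3, ctm w2, ctm w1, ctm w0] := by
    funext i
    fin_cases i <;> rfl
  rwa [e1, e2] at this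

/-- the backward rotation for five neighbours -/
theorem rot_mir5 (hT : Ts T D a b c) {x0 x1 x2 x3 x4 : V} {w0 w1 w2 w3 w4 : CT}
    (h : Rot T D v 4 ![x0, x1, x2, x3, x4] ![w0, w1, w2, w3, w4]) :
    Rot (Mir T) D v 4 ![x0, x4, x3, x2, x1] ![ctm w4, ctm w3, ctm w2, ctm w1, ctm w0] := by
  have := rot_mir hT h
  have e1 : (fun i => (![x0, x1, x2, x3, x4] : Fin 5 → V) (-i)) = ![x0, x4, x3, x2, x1] := by
    funext i
    fin_cases i <;> rfl
  have e2 : (fun i => ctm ((![w0, w1, w2, w3, w4] : Fin 5 → CT) (-(i + 1)))) =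
      ![ctm w4, ctm w3, ctm w2, ctm w1, ctm w0] := by
    funext i
    fin_cases i <;> rfl
  rwa [e1, e2] at this

/-- the backward rotation for six neighbours -/
theorem rot_mir6 (hT : Ts T D a b c) {x0 x1 x2 x3 x4 x5 : V} {w0 w1 w2 w3 w4 w5 : CT}
    (h : Rot T D v 5 ![x0, x1, x2, x3, x4, x5] ![w0, w1, w2, w3, w4, w5]) :
    Rot (Mir T) D v 5 ![x0, x5, x4, x3, x2, x1]
      ![ctm w5, ctm w4, ctm w3, ctm w2, ctm w1, ctm w0] := by
  have := rot_mir hT h
  have e1 : (fun i => (![x0, x1, x2, x3, x4, x5] : Fin 6 → V) (-i)) =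
      ![x0, x5, x4, x3, x2, x1] := by
    funext i
    fin_cases i <;> rfl
  have e2 : (fun i => ctm ((![w0, w1, w2, w3, w4, w5] : Fin 6 → CT) (-(i + 1)))) =
      ![ctm w5, ctm w4, ctm w3, ctm w2, ctm w1, ctm w0] := by
    funext i
    fin_cases i <;> rfl
  rwa [e1, e2] at this

end rot4

end Pool.Agent.H80.G4
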