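import Pool.Agent.H72.G4.Fill
import Pool.Agent.H80.G4.Rev

/-!
# No inner real vertex of degree at most three in a minimal counterexample
-/

set_option autoImplicit false

namespace Pool.Agent.H80.G4

open Relation Pool.Agent.H13.DA Pool.Agent.H72.G4

private theorem other : ∀ t t' : Fin 3, ∃ s : Fin 3, s ≠ t ∧ s ≠ t' := by decide

/-- insertion of `v` with the in-neighbours `p`, `q` and the out-neighbour `w` -/
private theorem cuts_in2 {V : Type*} {D : V → V → Prop} {O : Fin 3 → V → V → Prop} {v p q w : V}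
    (hO : ∀ i, STO (O i)) (hin : ∀ x, D x v → x = p ∨ x = q) (hout : ∀ x, D v x → x = w)
    (hp : ∃ i, O i p w) (hq : ∃ i, O i q w) (hpw : p ≠ w) (hqw : q ≠ w) : Cuts D v O := by
  have third : ∀ t t' : Fin 3, ∃ s : Fin 3, s ≠ t ∧ s ≠ t' ∧ (t ≠ t' → ∀ j, j ≠ s → j ≠ t → j = t') := by
    decide
  have three : ∀ t : Fin 3, ∃ s r : Fin 3, s ≠ t ∧ r ≠ t ∧ r ≠ s ∧
      ∀ j : Fin 3, j = t ∨ j = s ∨ j = r := by decide
  by_cases h : ∃ t, O t p w ∧ O t q w
  · obtain ⟨t, t1, t2⟩ := h
    obtain ⟨s, r, h1, h2, h3, h4⟩ := three t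
    refine ⟨fun i x => i = s ∨ (i = t ∧ O t x w), ?_, ?_, ?_⟩
    · rintro i x y - - (e | ⟨e, k⟩) hxy
      · exact Or.inl e
      · subst e
        exact Or.inr ⟨rfl, (hO _).tr _ _ _ hxy k⟩
    · intro x hx
      have hxt : O t x w := by
        rcases hin x hx with e | e
        · rw [e]; exact t1
        · rw [e]; exact t2
      refine ⟨r, ?_, ?_⟩
      · rintro (e | ⟨e, _⟩)
        · exact h3 e
        · exact h2 e
      · intro j hj
        rcases h4 j with e | e | e
        · exact Or.inr ⟨e, hxt⟩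
        · exact Or.inl e
        · exact absurd e hj
    · intro x hx
      have e := hout x hx
      subst e
      refine ⟨s, Or.inl rfl, ?_⟩
      rintro j hj (e | ⟨_, k⟩)
      · exact hj e
      · exact (hO t).irr _ k
  · obtain ⟨t1, k1⟩ := hp
    obtain ⟨t2, k2⟩ := hq
    have m1 : O t1 w q := ((hO t1).not hqw).1 fun k => h ⟨t1, k1, k⟩
    have m2 : O t2 w p := ((hO t2).not hpw).1 fun k => h ⟨t2, k, k2⟩
    have ht : t1 ≠ t2 := by
      rintro rfl
      exact h ⟨t1, k1, k2⟩
    obtain ⟨s, s1, s2, s3⟩ := third t1 t2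
    refine ⟨fun i x => i = s ∨ O i x w, ?_, ?_, ?_⟩
    · rintro i x y - - (e | k) hxy
      · exact Or.inl e
      · exact Or.inr ((hO i).tr _ _ _ hxy k)
    · intro x hx
      rcases hin x hx with e | e
      · subst e
        refine ⟨t2, ?_, ?_⟩
        · rintro (e | k)
          · exact s2 e.symm
          · exact (hO t2).asymm m2 k
        · intro j hj
          by_cases js : j = s
          · exact Or.inl js
          · by_cases jt : j = t1
            · subst jt
              exact Or.inr k1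
            · exact absurd (s3 ht j js jt) hj
      · subst e
        refine ⟨t1, ?_, ?_⟩
        · rintro (e | k)
          · exact s1 e.symm
          · exact (hO t1).asymm m1 k
        · intro j hj
          by_cases js : j = s
          · exact Or.inl js
          · have e := s3 ht j js hj
            subst e
            exact Or.inr k2
    · intro x hx
      have e := hout x hx
      subst e
      refine ⟨s, Or.inl rfl, ?_⟩
      rintro j hj (e | k)
      · exact hj e
      · exact (hO j).irr _ k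

section main

variable {V : Type*} [DecidableEq V] {T : Finset (V × V × V)} {D : V → V → Prop} {a b c : V}

/-- no inner vertex with the in-neighbours `p`, `q` (possibly equal) and one out-neighbour `w` -/
theorem red_in2 (hF : FanT V) (hM : MCw T D a b c) (hT : Ts T D a b c) {v p q w : V}
    (hv : ¬ Tr a b c v) (hin : ∀ x, D x v → x = p ∨ x = q) (hout : ∀ x, D v x → x = w)
    (hp : D p v) (hq : D q v) (hw : D v w) : False := by
  classical
  have hpw : p ≠ w := by
    rintro rfl
    exact hT.pl.asymm _ _ hp hw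
  have hqw : q ≠ w := by
    rintro rfl
    exact hT.pl.asymm _ _ hq hw
  have hwv : w ≠ v := by
    rintro rfl
    exact hT.pl.asymm _ _ hw hw
  have hpv : p ≠ v := by
    rintro rfl
    exact hT.pl.asymm _ _ hp hp
  have hqv : q ≠ v := by
    rintro rfl
    exact hT.pl.asymm _ _ hq hq
  let N : V → Prop := fun z => (z = p ∨ z = q) ∧ ¬ Ar D z w ∧ ∀ o, o ≠ v → D z o → ¬ D o w
  let A : V → V → Prop := fun x y => x = w ∧ N y
  have hNw : ¬ N w := by
    rintro ⟨e | e, -⟩
    · exact hpw e.symm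
    · exact hqw e.symm
  have hD : ∀ x y, Fil D v A x y → (D x y ∧ x ≠ v ∧ y ≠ v) ∨ (x = w ∧ N y) := by
    rintro x y (h | h)
    · exact Or.inl h
    · exact Or.inr h
  refine del_fill hF hM hT (v := v) (p := w) (A := A) hv ⟨w, Or.inl hw⟩ (Or.inl hw) ?_ ?_ ?_ ?_
  · rintro x y ⟨rfl, hy, -⟩
    left
    refine ⟨rfl, ?_, ?_⟩
    · rcases hy with rfl | rfl
      · exact Or.inr hp
      · exact Or.inr hq
    · rcases hy with rfl | rfl
      · exact hpw
      · exact hqw
  · intro x y g1 g2
    rcases hD x y g1 with ⟨h1, -, -⟩ | ⟨e1, h1⟩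
    · rcases hD y x g2 with ⟨h2, -, -⟩ | ⟨e2, h2⟩
      · exact hT.pl.asymm _ _ h1 h2
      · exact h2.2.1 (Or.inl (e2 ▸ h1))
    · rcases hD y x g2 with ⟨h2, -, -⟩ | ⟨e2, h2⟩
      · exact h1.2.1 (Or.inl (e1 ▸ h2))
      · exact hNw (e2 ▸ h1)
  · intro x y z g1 g2 g3
    rcases hD x y g1 with ⟨h1, n1, n1'⟩ | ⟨e1, h1⟩
    · rcases hD y z g2 with ⟨h2, n2, n2'⟩ | ⟨e2, h2⟩
      · rcases hD z x g3 with ⟨h3, n3, n3'⟩ | ⟨e3, h3⟩
        · exact hT.pl.tri _ _ _ h1 h2 h3
        · subst e3
          exact h3.2.2 _ n2 h1 h2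
      · subst e2
        rcases hD z x g3 with ⟨h3, n3, n3'⟩ | ⟨e3, h3⟩
        · exact h2.2.2 _ n1 h3 h1
        · exact hNw (e3 ▸ h2)
    · subst e1
      rcases hD y z g2 with ⟨h2, n2, n2'⟩ | ⟨e2, h2⟩
      · rcases hD z x g3 with ⟨h3, n3, n3'⟩ | ⟨e3, h3⟩
        · exact h1.2.2 _ n3 h2 h3
        · exact hNw h3
      · exact hNw (e2 ▸ h1)
  · intro O hO hE
    have key : ∀ z, (z = p ∨ z = q) → z ≠ w → z ≠ v → ∃ i, O i z w := by
      intro z hz hzw hzv
      by_cases hN : N z
      · obtain ⟨i, h1, -⟩ := hE w z (Or.inr ⟨rfl, hN⟩)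
        exact ⟨i, h1⟩
      · by_cases har : Ar D z w
        · rcases har with h | h
          · obtain ⟨i, h1, h2⟩ := hE z w (Or.inl ⟨h, hzv, hwv⟩)
            obtain ⟨j, hj⟩ := exists_ne i
            exact ⟨j, h2 j hj⟩
          · obtain ⟨i, h1, -⟩ := hE w z (Or.inl ⟨h, hwv, hzv⟩)
            exact ⟨i, h1⟩
        · have hex : ∃ o, o ≠ v ∧ D z o ∧ D o w := by
            by_contra hcon
            push Not at hcon
            exact hN ⟨hz, har, fun o h0 h1 => hcon o h0 h1⟩
          obtain ⟨o, h0, h1, h2⟩ := hex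
          obtain ⟨i, -, h3⟩ := hE z o (Or.inl ⟨h1, hzv, h0⟩)
          obtain ⟨j, -, h4⟩ := hE o w (Or.inl ⟨h2, h0, hwv⟩)
          obtain ⟨s, s1, s2⟩ := other i j
          exact ⟨s, (hO s).tr _ _ _ (h3 s s1) (h4 s s2)⟩
    exact cuts_in2 hO hin hout (key p (Or.inl rfl) hpw hpv) (key q (Or.inr rfl) hqw hqv) hpw hqw

/-- no inner vertex with one in-neighbour `w` and the out-neighbours `p`, `q` (possibly equal) -/
theorem red_out2 (hF : FanT V) (hM : MCw T D a b c) (hT : Ts T D a b c) {v p q w : V}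
    (hv : ¬ Tr a b c v) (hin : ∀ x, D x v → x = w) (hout : ∀ x, D v x → x = p ∨ x = q)
    (hp : D v p) (hq : D v q) (hw : D w v) : False :=
  red_in2 (D := Rev D) hF (mcw_rev.2 hM) (ts_rev.2 hT) hv hout hin hp hq hw

/-- **No inner real vertex has at most three neighbours.** -/
theorem red_deg3 (hF : FanT V) (hM : MCw T D a b c) (hT : Ts T D a b c) {v x y z : V}
    (hv : ¬ Tr a b c v) (hvr : Re D v) (hN : ∀ u, Ar D v u → u = x ∨ u = y ∨ u = z) : False := by
  classical
  obtain ⟨⟨p, hp⟩, q, hq⟩ := hT.io v hvr hv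
  have hpq : p ≠ q := by
    rintro rfl
    exact hT.pl.asymm _ _ hp hq
  -- a third neighbour, possibly none
  have hthird : ∃ r, ∀ u, Ar D v u → u = p ∨ u = q ∨ u = r := by
    have e1 := hN p (Or.inr hp)
    have e2 := hN q (Or.inl hq)
    rcases e1 with rfl | rfl | rfl <;> rcases e2 with rfl | rfl | rfl
    all_goals first
      | exact absurd rfl hpq
      | exact ⟨x, fun u hu => by have := hN u hu; tauto⟩
      | exact ⟨y, fun u hu => by have := hN u hu; tauto⟩
      | exact ⟨z, fun u hu => by have := hN u hu; tauto⟩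
  obtain ⟨r, hr⟩ := hthird
  have in_or : ∀ u, D u v → u = p ∨ u = r := by
    intro u hu
    rcases hr u (Or.inr hu) with e | e | e
    · exact Or.inl e
    · exact absurd hu (e ▸ hT.pl.asymm _ _ hq)
    · exact Or.inr e
  have out_or : ∀ u, D v u → u = q ∨ u = r := by
    intro u hu
    rcases hr u (Or.inl hu) with e | e | e
    · exact absurd hu (e ▸ hT.pl.asymm _ _ hp)
    · exact Or.inl e
    · exact Or.inr e
  by_cases h1 : D r v
  · refine red_in2 hF hM hT hv in_or (fun u hu => ?_) hp h1 hq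
    rcases out_or u hu with e | e
    · exact e
    · exact absurd hu (e ▸ hT.pl.asymm _ _ h1)
  · by_cases h2 : D v r
    · refine red_out2 hF hM hT hv (fun u hu => ?_) out_or hq h2 hp
      rcases in_or u hu with e | e
      · exact e
      · exact absurd hu (e ▸ h1)
    · refine red_in2 hF hM hT hv (p := p) (q := p) (w := q) (fun u hu => ?_) (fun u hu => ?_)
        hp hp hq
      · rcases in_or u hu with e | e
        · exact Or.inl e
        · exact absurd hu (e ▸ h1)
      · rcases out_or u hu with e | e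
        · exact e
        · exact absurd hu (e ▸ h2)

end main

end Pool.Agent.H80.G4
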