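import Pool.Agent.H35.G4.DisX
import Pool.Agent.H72.G4.LowC
import Pool.Agent.H95.G4.Adj
import Pool.Agent.H80.G4.Mir

/-!
# The reducible words do not occur at a good inner vertex
-/

set_option autoImplicit false

namespace Pool.Agent.H80.G4

open Relation Pool.Agent.H13.DA Pool.Agent.H72.G4 Pool.Agent.H21.G4 Pool.Agent.H96.G4
open Pool.Agent.H35.G4
open CT

variable {V : Type*} [DecidableEq V] {T : Finset (V × V × V)} {D : V → V → Prop} {a b c : V}

/-- the words `22qq`, `21qq`, `11qq` with the three spokes going in -/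
private theorem adj_in [Infinite V] (hM : MCw T D a b c) (hT : Ts T D a b c) {v : V}
    (hv : ¬ Tr a b c v) (hg : Good T D v) {x : Fin 4 → V} {w : Fin 4 → CT}
    (R : Rot T D v 3 x w) (h : [w 0, w 1, w 2, w 3] ∈ [[s2, s2, q, q], [s1, s1, q, q], [s2, s1, q, q]])
    (d1 : D (x 1) v) : False := by
  have hF : FanT V := Pool.Agent.H13.G4.fanT
  have as := hT.pl.asymm
  have c0 := R.cor 0
  have c1 := R.cor 1
  have c2 := R.cor 2
  have f1 : (0 : Fin 4) + 1 = 1 := rfl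
  have f2 : (1 : Fin 4) + 1 = 2 := rfl
  have f3 : (2 : Fin 4) + 1 = 3 := rfl
  have f4 : (3 : Fin 4) + 1 = 0 := rfl
  rw [f1] at c0
  rw [f2] at c1
  rw [f3] at c2
  have hN := nb4 R
  have nn : ∀ i j : Fin 4, j ≠ i + 1 → i ≠ j + 1 → ¬ Ar D (x i) (x j) := by
    intro i j h1 h2 h3
    rcases R.adj hT hv h3 with ⟨k, _⟩ | ⟨k, _⟩
    · exact h1 k
    · exact h2 k
  have nq : ∀ i : Fin 4, w i = q → ¬ Ar D (x i) (x (i + 1)) := by
    intro i h1 h3
    rcases R.adj hT hv h3 with ⟨_, k⟩ | ⟨k, _⟩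
    · exact k h1
    · exact absurd k (hh4 i)
  have n02 : ¬ Ar D (x 0) (x 2) := nn 0 2 (by decide) (by decide)
  have n13 : ¬ Ar D (x 1) (x 3) := nn 1 3 (by decide) (by decide)
  have e02 : x 0 ≠ x 2 := fun k => absurd (R.inj k) (by decide)
  have w01 : w 0 ≠ q ∧ w 1 ≠ q ∧ w 2 = q ∧ w 3 = q := by
    simp only [List.mem_cons, List.cons.injEq, List.not_mem_nil, or_false, and_true] at h
    rcases h with ⟨w0, w1, w2, w3⟩ | ⟨w0, w1, w2, w3⟩ | ⟨w0, w1, w2, w3⟩ <;>
      rw [w0, w1, w2, w3] <;> exact ⟨by decide, by decide, rfl, rfl⟩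
  have hd : ∀ d, ¬ Re D d → Adj T d v → Adj T d (x 1) → ¬ Adj T d (x 3) := by
    intro d k1 k2 k3 _
    have k3' : Adj T d (x (0 + 1)) := k3
    exact R.nodummy hT hv (i := 0) w01.1 (by rw [f1]; exact w01.2.1) k1 k2 k3'
  have n23 : ¬ Ar D (x 2) (x 3) := by
    have := nq 2 w01.2.2.1
    rwa [f3] at this
  have n30 : ¬ Ar D (x 3) (x 0) := by
    have := nq 3 w01.2.2.2
    rwa [f4] at this
  -- directions
  have a0 : D (x 0) v ∧ Ar D (x 0) (x 1) := by
    cases hw : w 0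
    · exact absurd hw w01.1
    · rw [hw] at c0
      obtain ⟨_, ⟨_, k2, _⟩ | ⟨k1, _, k3⟩⟩ := c0
      · exact absurd k2 (as _ _ d1)
      · exact ⟨k1, Or.inl k3⟩
    · rw [hw] at c0
      obtain ⟨_, ⟨_, k2, _⟩ | ⟨k1, _, k3⟩⟩ := c0
      · exact absurd k2 (as _ _ d1)
      · exact ⟨k1, Or.inr k3⟩
    · simp only [List.mem_cons, List.cons.injEq, List.not_mem_nil, or_false, and_true] at h
      rw [hw] at h
      rcases h with ⟨w0, _⟩ | ⟨w0, _⟩ | ⟨w0, _⟩ <;> exact absurd w0 (by decide)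
  have a2 : D (x 2) v ∧ Ar D (x 1) (x 2) := by
    cases hw : w 1
    · exact absurd hw w01.2.1
    · rw [hw] at c1
      obtain ⟨_, ⟨k1, _, _⟩ | ⟨_, k2, k3⟩⟩ := c1
      · exact absurd k1 (as _ _ d1)
      · exact ⟨k2, Or.inl k3⟩
    · rw [hw] at c1
      obtain ⟨_, ⟨k1, _, _⟩ | ⟨_, k2, k3⟩⟩ := c1
      · exact absurd k1 (as _ _ d1)
      · exact ⟨k2, Or.inr k3⟩
    · simp only [List.mem_cons, List.cons.injEq, List.not_mem_nil, or_false, and_true] at h
      rw [hw] at h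
      rcases h with ⟨_, w0, _⟩ | ⟨_, w0, _⟩ | ⟨_, w0, _⟩ <;> exact absurd w0 (by decide)
  have a3 : D v (x 3) := by
    rw [w01.2.2.1] at c2
    rcases c2.2 with ⟨_, k⟩ | ⟨k, _⟩
    · exact k
    · exact absurd k (as _ _ a2.1)
  have key : D (x 1) (x 0) ∨ D (x 1) (x 2) := by
    simp only [List.mem_cons, List.cons.injEq, List.not_mem_nil, or_false, and_true] at h
    rcases h with ⟨w0, w1, _⟩ | ⟨w0, w1, _⟩ | ⟨w0, w1, _⟩
    · rw [w0] at c0
      obtain ⟨_, ⟨_, k2, _⟩ | ⟨_, _, k3⟩⟩ := c0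
      · exact absurd k2 (as _ _ d1)
      · exact Or.inl k3
    · rw [w1] at c1
      obtain ⟨_, ⟨k1, _, _⟩ | ⟨_, _, k3⟩⟩ := c1
      · exact absurd k1 (as _ _ d1)
      · exact Or.inr k3
    · rw [w0] at c0
      obtain ⟨_, ⟨_, k2, _⟩ | ⟨_, _, k3⟩⟩ := c0
      · exact absurd k2 (as _ _ d1)
      · exact Or.inl k3
  rcases key with k | k
  · exact Pool.Agent.H95.G4.red_adj hF hM hT hv hg hN a0.1 d1 a2.1 a3 k a2.2 e02 n02
      (fun k => n30 (ar_symm k)) n13 n23 hd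
  · exact Pool.Agent.H95.G4.red_adj hF hM hT hv hg (x0 := x 2) (x1 := x 1) (x2 := x 0) (x3 := x 3)
      (fun u => (hN u).trans (by tauto)) a2.1 d1 a0.1 a3 k (ar_symm a0.2) e02.symm
      (fun k => n02 (ar_symm k)) n23 n13 (fun k => n30 (ar_symm k)) hd

/-- the words `22qq`, `21qq`, `11qq` do not occur -/
theorem low4a [Infinite V] (hM : MCw T D a b c) (hT : Ts T D a b c) {v : V}
    (hv : ¬ Tr a b c v) (hg : Good T D v) {x : Fin 4 → V} {w : Fin 4 → CT}
    (R : Rot T D v 3 x w)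
    (h : [w 0, w 1, w 2, w 3] ∈ [[s2, s2, q, q], [s1, s1, q, q], [s2, s1, q, q]]) : False := by
  rcases (R.nb (x 1)).2 ⟨1, rfl⟩ with k | k
  · exact adj_in (mcw_rev.2 hM) (ts_rev.2 hT) hv (good_rev.2 hg) (rot_rev R) h k
  · exact adj_in hM hT hv hg R h k

private theorem red_len : ∀ p ∈ RED, p.length = 4 ∨ p.length = 5 := by decide

private theorem red_4 : ∀ p ∈ RED, p.length = 4 →
    p ∈ [[m, q, m, q], [q, q, m, q], [m, s1, s1, q], [q, s2, s2, m]] ∨
    p ∈ [[s2, s2, q, q], [s1, s1, q, q], [s2, s1, q, q]] := by decide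

private theorem red_5 : ∀ p ∈ RED, p.length = 5 →
    p ∈ [[m, q, m, s1, q], [q, s2, m, q, m]] := by decide

/-- **The reducible words do not occur at a good inner vertex.** -/
theorem red_words [Infinite V] (hM : MCw T D a b c) (hT : Ts T D a b c) {v : V}
    (hv : ¬ Tr a b c v) (hg : Good T D v) {n : ℕ} {x : Fin (n + 1) → V} {w : Fin (n + 1) → CT}
    (R : Rot T D v n x w) (k : Fin (n + 1)) : rt w k ∉ RED := by
  intro h
  have hl : (rt w k).length = n + 1 := by simp [rt]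
  have R' := R.shift k
  rcases red_len _ h with e | e
  · have hn : n = 3 := by omega
    subst hn
    have e4 : rt w k = [w (k + 0), w (k + 1), w (k + 2), w (k + 3)] := rfl
    rcases red_4 _ h e with hs | hs
    · rw [e4] at hs
      exact low4f hM hT hv hg R' hs
    · rw [e4] at hs
      exact low4a hM hT hv hg R' hs
  · have hn : n = 4 := by omega
    subst hn
    have e5 : rt w k = [w (k + 0), w (k + 1), w (k + 2), w (k + 3), w (k + 4)] := rfl
    have hs := red_5 _ h e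
    rw [e5] at hs
    exact low5 hM hT hv hg R' hs

end Pool.Agent.H80.G4
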