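import Pool.Agent.H72.G4.Row
import Pool.Agent.H80.G4.RedW

/-!
# The reducible words do not occur at an inner vertex of the region
-/

set_option autoImplicit false

namespace Pool.Agent.H80.G4

open Relation Pool.Agent.H13.DA Pool.Agent.H72.G4 Pool.Agent.H13.G4 Pool.Agent.H96.G4
open Pool.Agent.H35.G4

variable {V : Type*} [DecidableEq V] {T X : Finset (V × V × V)} {D : V → V → Prop} {a b c : V}
  {Z : List V}

/-- **RED** in the form used by the discharging. -/
theorem hRED [Infinite V] (hM : MCw T D a b c) (hT : Ts T D a b c) (hC : Ctx T X D a b c Z) :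
    ∀ u, In X D Z u → ∀ (n : ℕ) (x : Fin (n + 1) → V) (w : Fin (n + 1) → CT),
      Rot T D u n x w → List.ofFn w ∉ RED := by
  intro u hu n x w R h
  have h1 := red_words hM hT (hC.reg.inner hT hu.1 hu.2.2) (hC.good u hu.1 hu.2.1 hu.2.2) R 0
  apply h1
  have e : rt w 0 = List.ofFn w := by
    unfold rt
    congr 1
    funext i
    rw [zero_add]
  rw [e]
  exact h

end Pool.Agent.H80.G4
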